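import Pool.Agent.Lib_helper9.KP.I2

/-!
# Block J : jets and uniqueness for the closed system (MP_3b4c52_gt), generic version
-/

set_option autoImplicit false
set_option linter.unusedSectionVars false
set_option maxSynthPendingDepth 3

open scoped Manifold ContDiff InnerProductSpace Topology
open Metric Set

noncomputable section

namespace Pool.Agent.KP.I9

variable {V W : Type*} [NormedAddCommGroup V] [NormedSpace ℝ V] [FiniteDimensional ℝ V]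
  [NormedAddCommGroup W] [NormedSpace ℝ W] [FiniteDimensional ℝ W]

/-- generic version of `IsSys` -/
structure GSys (F : V → W) (c : V → (W →L[ℝ] V)) (e : V → (V →L[ℝ] W →L[ℝ] V)) (r : ℝ) : Prop where
  dF : ∀ x ∈ ball (0 : V) r, DifferentiableAt ℝ F x
  dF1 : ∀ x ∈ ball (0 : V) r, DifferentiableAt ℝ (fderiv ℝ F) x
  dF2 : ∀ x ∈ ball (0 : V) r, DifferentiableAt ℝ (fderiv ℝ (fderiv ℝ F)) x
  symm : ∀ x ∈ ball (0 : V) r, ∀ ξ η,
    fderiv ℝ (fderiv ℝ F) x ξ η = fderiv ℝ (fderiv ℝ F) x η ξ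
  dc : ∀ x ∈ ball (0 : V) r, DifferentiableAt ℝ c x
  de : ∀ x ∈ ball (0 : V) r, DifferentiableAt ℝ e x
  eqQ : ∀ x ∈ ball (0 : V) r, ∀ ζ ξ η,
    fderiv ℝ (fderiv ℝ (fderiv ℝ F)) x ζ ξ η = gTri (fderiv ℝ (fderiv ℝ F) x) (c x) ζ ξ η
  eqc : ∀ x ∈ ball (0 : V) r, ∀ ζ X,
    fderiv ℝ c x ζ X = e x ζ X - c x (fderiv ℝ (fderiv ℝ F) x ζ (c x X))
  eqe : ∀ x ∈ ball (0 : V) r, ∀ ζ η X,
    fderiv ℝ e x ζ η X = - c x (fderiv ℝ (fderiv ℝ F) x (e x η X) ζ)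
      + e x (c x (fderiv ℝ (fderiv ℝ F) x η ζ)) X
      - e x η (fderiv ℝ (fderiv ℝ F) x ζ (c x X))

theorem iter_step {G : Type*} [NormedAddCommGroup G] [NormedSpace ℝ G] {f g g' : ℝ → G} {U : Set ℝ}
    (hU : IsOpen U) {k : ℕ} (h : ∀ t ∈ U, iteratedDeriv k f t = g t)
    (hg : ∀ t ∈ U, HasDerivAt g (g' t) t) : ∀ t ∈ U, iteratedDeriv (k + 1) f t = g' t := by
  intro t ht
  rw [iteratedDeriv_succ]
  have h1 : iteratedDeriv k f =ᶠ[𝓝 t] g := by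
    filter_upwards [hU.mem_nhds ht] with s hs
    exact h s hs
  rw [h1.deriv_eq]
  exact (hg t ht).deriv

theorem hasDerivAt_ray {G : Type*} [NormedAddCommGroup G] [NormedSpace ℝ G] {g : V → G} {ξ : V}
    {t : ℝ} (hg : DifferentiableAt ℝ g (t • ξ)) :
    HasDerivAt (fun t : ℝ => g (t • ξ)) (fderiv ℝ g (t • ξ) ξ) t := by
  have h1 : HasDerivAt (fun t : ℝ => t • ξ) ξ t := by
    have := (hasDerivAt_id t).smul_const ξ
    simpa using this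
  exact hg.hasFDerivAt.comp_hasDerivAt t h1

theorem jets_alg (Q : V →L[ℝ] V →L[ℝ] W) (hs : ∀ a b, Q a b = Q b a)
    (c : W →L[ℝ] V) (e : V →L[ℝ] W →L[ℝ] V)
    (Q' : V →L[ℝ] V →L[ℝ] V →L[ℝ] W) (c' : V →L[ℝ] W →L[ℝ] V)
    (hQ' : ∀ ζ ξ η, Q' ζ ξ η = gTri Q c ζ ξ η)
    (hc' : ∀ ζ X, c' ζ X = e ζ X - c (Q ζ (c X))) (ξ : V) :
    (3 : ℝ) • (Q' ξ ξ (c (Q ξ ξ)) + Q ξ (c' ξ (Q ξ ξ)) + Q ξ (c (Q' ξ ξ ξ))) =
      (12 : ℝ) • Q ξ (c (Q ξ (c (Q ξ ξ)))) + (3 : ℝ) • Q (c (Q ξ ξ)) (c (Q ξ ξ))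
      + (3 : ℝ) • Q ξ (e ξ (Q ξ ξ)) := by
  simp only [hQ', hc', gTri, map_add, map_sub]
  simp only [hs (c (Q ξ ξ)) ξ]
  module

theorem jets (F : V → W) (c : V → (W →L[ℝ] V)) (e : V → (V →L[ℝ] W →L[ℝ] V)) (r : ℝ) (hr : 0 < r)
    (h : GSys F c e r) (ξ : V) :
    iteratedDeriv 3 (fun t : ℝ => F (t • ξ)) 0 =
      (3 : ℝ) • fderiv ℝ (fderiv ℝ F) 0 ξ (c 0 (fderiv ℝ (fderiv ℝ F) 0 ξ ξ)) ∧
    iteratedDeriv 4 (fun t : ℝ => F (t • ξ)) 0 =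
      (12 : ℝ) • fderiv ℝ (fderiv ℝ F) 0 ξ (c 0 (fderiv ℝ (fderiv ℝ F) 0 ξ
        (c 0 (fderiv ℝ (fderiv ℝ F) 0 ξ ξ))))
      + (3 : ℝ) • fderiv ℝ (fderiv ℝ F) 0 (c 0 (fderiv ℝ (fderiv ℝ F) 0 ξ ξ))
        (c 0 (fderiv ℝ (fderiv ℝ F) 0 ξ ξ))
      + (3 : ℝ) • fderiv ℝ (fderiv ℝ F) 0 ξ (e 0 ξ (fderiv ℝ (fderiv ℝ F) 0 ξ ξ)) := by
  set Q : V → V →L[ℝ] V →L[ℝ] W := fderiv ℝ (fderiv ℝ F) with hQ
  set U : Set ℝ := {t : ℝ | t • ξ ∈ ball (0 : V) r} with hUdef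
  have hU : IsOpen U := isOpen_ball.preimage (by fun_prop : Continuous fun t : ℝ => t • ξ)
  have h0U : (0 : ℝ) ∈ U := by simp [hUdef, hr]
  have s0 : ∀ t ∈ U, iteratedDeriv 0 (fun t : ℝ => F (t • ξ)) t = F (t • ξ) := by
    intro t _; rw [iteratedDeriv_zero]
  have s1 : ∀ t ∈ U, iteratedDeriv 1 (fun t : ℝ => F (t • ξ)) t = fderiv ℝ F (t • ξ) ξ :=
    iter_step hU s0 (fun t ht => hasDerivAt_ray (h.dF _ ht))
  have s2 : ∀ t ∈ U, iteratedDeriv 2 (fun t : ℝ => F (t • ξ)) t = Q (t • ξ) ξ ξ := by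
    refine iter_step hU s1 (fun t ht => ?_)
    have h1 := fderiv_apply_const (h.dF1 _ ht) ξ
    have h2 := hasDerivAt_ray h1.1
    rw [h1.2] at h2
    exact h2
  have s3 : ∀ t ∈ U, iteratedDeriv 3 (fun t : ℝ => F (t • ξ)) t =
      (3 : ℝ) • Q (t • ξ) ξ (c (t • ξ) (Q (t • ξ) ξ ξ)) := by
    refine iter_step hU s2 (fun t ht => ?_)
    have h1 := fderiv_apply_const (h.dF2 _ ht) ξ
    have h1' := fderiv_apply_const h1.1 ξ
    have h2 := hasDerivAt_ray h1'.1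
    rw [h1'.2, h1.2, h.eqQ _ ht] at h2
    have h3 : gTri (fderiv ℝ (fderiv ℝ F) (t • ξ)) (c (t • ξ)) ξ ξ ξ =
        (3 : ℝ) • Q (t • ξ) ξ (c (t • ξ) (Q (t • ξ) ξ ξ)) := by
      simp only [gTri]; module
    rw [h3] at h2
    exact h2
  refine ⟨by have := s3 0 h0U; simpa using this, ?_⟩
  have s4 := iter_step hU s3 (g' := fun t => (3 : ℝ) • (fderiv ℝ (fun y => Q y ξ (c y (Q y ξ ξ)))
      (t • ξ) ξ)) (fun t ht => by
    have h1 := deriv_term1 (h.dF2 _ ht) (h.dc _ ht) ξ ξ ξ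
    exact (hasDerivAt_ray h1.1).const_smul (3 : ℝ)) 0 h0U
  rw [s4]
  have h00 : ((0 : ℝ) • ξ : V) = 0 := zero_smul _ _
  have h0b : (0 : V) ∈ ball (0 : V) r := mem_ball_self hr
  show (3 : ℝ) • (fderiv ℝ (fun y => Q y ξ (c y (Q y ξ ξ))) ((0 : ℝ) • ξ) ξ) = _
  rw [h00, (deriv_term1 (h.dF2 _ h0b) (h.dc _ h0b) ξ ξ ξ).2 ξ]
  exact jets_alg (Q 0) (h.symm 0 h0b) (c 0) (e 0) (fderiv ℝ Q 0) (fderiv ℝ c 0) (h.eqQ 0 h0b)
    (h.eqc 0 h0b) ξ

/-! ### Uniqueness -/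

/-- `(y, z) ↦ Tri Q c x y z` -/
def triX (Q : V →L[ℝ] V →L[ℝ] W) (c : W →L[ℝ] V) (x : V) : V →L[ℝ] V →L[ℝ] W :=
  LinearMap.toContinuousLinearMap
    { toFun := fun y => LinearMap.toContinuousLinearMap
        { toFun := fun z => gTri Q c x y z
          map_add' := by
            intro z z'
            simp only [gTri, map_add, add_apply]; abel
          map_smul' := by
            intro r z
            simp only [gTri, map_smul, smul_apply, smul_add, RingHom.id_apply] }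
      map_add' := by
        intro y y'
        ext1 z
        show gTri Q c x (y + y') z = gTri Q c x y z + gTri Q c x y' z
        simp only [gTri, map_add, add_apply]; abel
      map_smul' := by
        intro r y
        ext1 z
        show gTri Q c x (r • y) z = r • gTri Q c x y z
        simp only [gTri, map_smul, smul_apply, smul_add] }

theorem triX_apply (Q : V →L[ℝ] V →L[ℝ] W) (c : W →L[ℝ] V) (x y z : V) :
    triX Q c x y z = gTri Q c x y z := rfl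

variable (V W) in
/-- the state space -/
abbrev St := W × (V →L[ℝ] W) × (V →L[ℝ] V →L[ℝ] W) × (W →L[ℝ] V) × (V →L[ℝ] W →L[ℝ] V)

/-- the vector field in direction `x` -/
def vf (x : V) (y : St V W) : St V W :=
  (y.2.1 x, y.2.2.1 x, triX y.2.2.1 y.2.2.2.1 x,
    y.2.2.2.2 x - qqCLM y.2.2.1 y.2.2.2.1 x, natCLM y.2.2.1 y.2.2.2.1 y.2.2.2.2 x)

theorem contDiff_vf (x : V) : ContDiff ℝ 1 (vf (W := W) x) := by
  unfold vf
  refine ContDiff.prodMk (by fun_prop) (ContDiff.prodMk (by fun_prop)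
    (ContDiff.prodMk ?_ (ContDiff.prodMk ?_ ?_)))
  · rw [contDiff_clm_apply_iff]; intro a
    rw [contDiff_clm_apply_iff]; intro b
    simp only [triX_apply, gTri]
    fun_prop
  · rw [contDiff_clm_apply_iff]; intro a
    simp only [sub_apply, qqCLM_apply]
    fun_prop
  · rw [contDiff_clm_apply_iff]; intro a
    rw [contDiff_clm_apply_iff]; intro b
    simp only [natCLM_apply]
    fun_prop

/-- the solution along a ray -/
def ray (F : V → W) (c : V → (W →L[ℝ] V)) (e : V → (V →L[ℝ] W →L[ℝ] V)) (x : V) (t : ℝ) : St V W :=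
  (F (t • x), fderiv ℝ F (t • x), fderiv ℝ (fderiv ℝ F) (t • x), c (t • x), e (t • x))

theorem hasDerivAt_solution {F : V → W} {c : V → (W →L[ℝ] V)} {e : V → (V →L[ℝ] W →L[ℝ] V)} {r : ℝ}
    (h : GSys F c e r) {x : V} {t : ℝ} (ht : t • x ∈ ball (0 : V) r) :
    HasDerivAt (ray F c e x) (vf x (ray F c e x t)) t := by
  have h1 := hasDerivAt_ray (h.dF _ ht)
  have h2 := hasDerivAt_ray (h.dF1 _ ht)
  have h3 := hasDerivAt_ray (h.dF2 _ ht)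
  have h4 := hasDerivAt_ray (h.dc _ ht)
  have h5 := hasDerivAt_ray (h.de _ ht)
  have e3 : fderiv ℝ (fderiv ℝ (fderiv ℝ F)) (t • x) x =
      triX (fderiv ℝ (fderiv ℝ F) (t • x)) (c (t • x)) x := by
    ext1 a; ext1 b
    exact h.eqQ _ ht x a b
  have e4 : fderiv ℝ c (t • x) x = e (t • x) x - qqCLM (fderiv ℝ (fderiv ℝ F) (t • x)) (c (t • x)) x := by
    ext1 a
    exact h.eqc _ ht x a
  have e5 : fderiv ℝ e (t • x) x =
      natCLM (fderiv ℝ (fderiv ℝ F) (t • x)) (c (t • x)) (e (t • x)) x := by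
    ext1 a; ext1 b
    exact h.eqe _ ht x a b
  rw [e3] at h3
  rw [e4] at h4
  rw [e5] at h5
  exact h1.prodMk (h2.prodMk (h3.prodMk (h4.prodMk h5)))

theorem sys_unique (F₁ F₂ : V → W) (c₁ c₂ : V → (W →L[ℝ] V)) (e₁ e₂ : V → (V →L[ℝ] W →L[ℝ] V))
    (r : ℝ) (h₁ : GSys F₁ c₁ e₁ r) (h₂ : GSys F₂ c₂ e₂ r) (i0 : F₁ 0 = F₂ 0)
    (i1 : fderiv ℝ F₁ 0 = fderiv ℝ F₂ 0)
    (i2 : fderiv ℝ (fderiv ℝ F₁) 0 = fderiv ℝ (fderiv ℝ F₂) 0) (ic : c₁ 0 = c₂ 0)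
    (ie : e₁ 0 = e₂ 0) : ∀ x ∈ ball (0 : V) r, F₁ x = F₂ x := by
  intro x hx
  have hxr : ‖x‖ < r := by simpa using hx
  have hmem : ∀ t ∈ Icc (0 : ℝ) 1, t • x ∈ ball (0 : V) r := by
    intro t ht
    rw [mem_ball_zero_iff, norm_smul, Real.norm_of_nonneg ht.1]
    calc t * ‖x‖ ≤ 1 * ‖x‖ := mul_le_mul_of_nonneg_right ht.2 (norm_nonneg _)
      _ < r := by rw [one_mul]; exact hxr
  have hd1 : ∀ t ∈ Icc (0 : ℝ) 1, HasDerivAt (ray F₁ c₁ e₁ x) (vf x (ray F₁ c₁ e₁ x t)) t :=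
    fun t ht => hasDerivAt_solution h₁ (hmem t ht)
  have hd2 : ∀ t ∈ Icc (0 : ℝ) 1, HasDerivAt (ray F₂ c₂ e₂ x) (vf x (ray F₂ c₂ e₂ x t)) t :=
    fun t ht => hasDerivAt_solution h₂ (hmem t ht)
  have hc1 : ContinuousOn (ray F₁ c₁ e₁ x) (Icc 0 1) := fun t ht =>
    (hd1 t ht).continuousAt.continuousWithinAt
  have hc2 : ContinuousOn (ray F₂ c₂ e₂ x) (Icc 0 1) := fun t ht =>
    (hd2 t ht).continuousAt.continuousWithinAt
  have hproper : ProperSpace (St V W) := FiniteDimensional.proper_real _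
  obtain ⟨R, hR⟩ := ((isCompact_Icc.image_of_continuousOn hc1).union
    (isCompact_Icc.image_of_continuousOn hc2)).isBounded.subset_closedBall (0 : St V W)
  obtain ⟨K, hK⟩ := (contDiff_vf (W := W) x).contDiffOn.exists_lipschitzOnWith one_ne_zero
    (convex_closedBall (0 : St V W) R) (isCompact_closedBall _ _)
  have key := ODE_solution_unique_of_mem_Icc_right (v := fun _ => vf x) (s := fun _ => closedBall (0 : St V W) R)
    (K := K) (f := ray F₁ c₁ e₁ x) (g := ray F₂ c₂ e₂ x) (a := 0) (b := 1)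
    (fun t _ => hK) hc1 (fun t ht => (hd1 t (Ico_subset_Icc_self ht)).hasDerivWithinAt)
    (fun t ht => hR (Or.inl ⟨t, Ico_subset_Icc_self ht, rfl⟩)) hc2
    (fun t ht => (hd2 t (Ico_subset_Icc_self ht)).hasDerivWithinAt)
    (fun t ht => hR (Or.inr ⟨t, Ico_subset_Icc_self ht, rfl⟩))
    (by simp only [ray, zero_smul, i0, i1, i2, ic, ie])
  have h1 := key (right_mem_Icc.2 zero_le_one)
  have h2 := congrArg Prod.fst h1
  simpa [ray] using h2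

end Pool.Agent.KP.I9
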