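import Pool.Agent.Lib_helper69.KP.Defs
import Pool.Agent.Lib_helper9.KP.J1

/-!
# Block J : jets and uniqueness for the closed system (MP_3b4c52_gt)
-/

set_option autoImplicit false
set_option maxSynthPendingDepth 3

open scoped Manifold ContDiff InnerProductSpace Topology
open Metric Set

noncomputable section

namespace Pool.Agent.KP

variable {d : ℕ}

theorem IsSys.toGSys {F : T d → N d} {c : T d → (N d →L[ℝ] T d)}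
    {e : T d → (T d →L[ℝ] N d →L[ℝ] T d)} {r : ℝ} (h : IsSys F c e r) : I9.GSys F c e r :=
  { dF := h.dF, dF1 := h.dF1, dF2 := h.dF2, symm := h.symm, dc := h.dc, de := h.de
    eqQ := h.eqQ, eqc := h.eqc, eqe := h.eqe }

theorem jets_isSys (F : T d → N d) (c : T d → (N d →L[ℝ] T d))
    (e : T d → (T d →L[ℝ] N d →L[ℝ] T d)) (r : ℝ) (hr : 0 < r) (h : IsSys F c e r) (ξ : T d) :
    iteratedDeriv 3 (fun t : ℝ => F (t • ξ)) 0 = (3 : ℝ) • D2 F 0 ξ (c 0 (D2 F 0 ξ ξ)) ∧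
    iteratedDeriv 4 (fun t : ℝ => F (t • ξ)) 0 =
      (12 : ℝ) • D2 F 0 ξ (c 0 (D2 F 0 ξ (c 0 (D2 F 0 ξ ξ))))
      + (3 : ℝ) • D2 F 0 (c 0 (D2 F 0 ξ ξ)) (c 0 (D2 F 0 ξ ξ))
      + (3 : ℝ) • D2 F 0 ξ (e 0 ξ (D2 F 0 ξ ξ)) :=
  I9.jets F c e r hr h.toGSys ξ

theorem isSys_unique (F₁ F₂ : T d → N d) (c₁ c₂ : T d → (N d →L[ℝ] T d))
    (e₁ e₂ : T d → (T d →L[ℝ] N d →L[ℝ] T d)) (r : ℝ)
    (h₁ : IsSys F₁ c₁ e₁ r) (h₂ : IsSys F₂ c₂ e₂ r) (i0 : F₁ 0 = F₂ 0)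
    (i1 : fderiv ℝ F₁ 0 = fderiv ℝ F₂ 0) (i2 : D2 F₁ 0 = D2 F₂ 0) (ic : c₁ 0 = c₂ 0)
    (ie : e₁ 0 = e₂ 0) : ∀ x ∈ ball (0 : T d) r, F₁ x = F₂ x :=
  I9.sys_unique F₁ F₂ c₁ c₂ e₁ e₂ r h₁.toGSys h₂.toGSys i0 i1 i2 ic ie

end Pool.Agent.KP
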