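import Mathlib

/-!
# Block I : the closed system (MP_3b4c52_gt), in arbitrary finite dimensional spaces
-/

set_option autoImplicit false
set_option linter.unusedSectionVars false

open scoped Manifold ContDiff InnerProductSpace Topology
open Metric Set

noncomputable section

namespace Pool.Agent.KP.I9

variable {V W : Type*} [NormedAddCommGroup V] [NormedSpace ℝ V] [FiniteDimensional ℝ V]
  [NormedAddCommGroup W] [NormedSpace ℝ W] [FiniteDimensional ℝ W]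

/-- the cyclic sum `Q(x,cQ(y,z)) + Q(y,cQ(z,x)) + Q(z,cQ(x,y))`. -/
def gTri (Q : V →L[ℝ] V →L[ℝ] W) (c : W →L[ℝ] V) (x y z : V) : W :=
  Q x (c (Q y z)) + Q y (c (Q z x)) + Q z (c (Q x y))

/-- the symmetry condition on fourth order data. -/
def gSym4 (Q : V →L[ℝ] V →L[ℝ] W) (e : V →L[ℝ] W →L[ℝ] V) : Prop :=
  ∀ θ ξ η ζ, Q ξ (e θ (Q η ζ)) + Q η (e θ (Q ζ ξ)) + Q ζ (e θ (Q ξ η))
           = Q θ (e ξ (Q η ζ)) + Q η (e ξ (Q ζ θ)) + Q ζ (e ξ (Q θ η))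

/-! ### Auxiliary maps -/

/-- `c ↦ Tri Q c`, evaluated at a family of vectors -/
def triL {ι : Type*} (b : ι → V) (Q : V →L[ℝ] V →L[ℝ] W) :
    (W →L[ℝ] V) →ₗ[ℝ] (ι × ι × ι → W) where
  toFun c := fun t => gTri Q c (b t.1) (b t.2.1) (b t.2.2)
  map_add' c c' := by
    funext t
    simp only [gTri, map_add, add_apply, Pi.add_apply]; abel
  map_smul' r c := by
    funext t
    simp only [gTri, map_smul, smul_apply, smul_add, Pi.smul_apply, RingHom.id_apply]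

theorem triL_apply {ι : Type*} (b : ι → V) (Q : V →L[ℝ] V →L[ℝ] W) (c : W →L[ℝ] V)
    (t : ι × ι × ι) : triL b Q c t = gTri Q c (b t.1) (b t.2.1) (b t.2.2) := rfl

theorem gTri_add1 (Q : V →L[ℝ] V →L[ℝ] W) (c : W →L[ℝ] V) (x x' y z : V) :
    gTri Q c (x + x') y z = gTri Q c x y z + gTri Q c x' y z := by
  simp only [gTri, map_add, add_apply]; abel

theorem gTri_smul1 (Q : V →L[ℝ] V →L[ℝ] W) (c : W →L[ℝ] V) (r : ℝ) (x y z : V) :
    gTri Q c (r • x) y z = r • gTri Q c x y z := by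
  simp only [gTri, map_smul, smul_apply, smul_add]

theorem gTri_cyc (Q : V →L[ℝ] V →L[ℝ] W) (c : W →L[ℝ] V) (x y z : V) :
    gTri Q c x y z = gTri Q c y z x := by
  simp only [gTri]; abel

/-- vanishing on a basis -/
theorem gTri_eq_zero {ι : Type*} (b : Module.Basis ι ℝ V) (Q : V →L[ℝ] V →L[ℝ] W) (c : W →L[ℝ] V)
    (h : ∀ i j k, gTri Q c (b i) (b j) (b k) = 0) (x y z : V) : gTri Q c x y z = 0 := by
  have key : ∀ y z : V, (∀ i, gTri Q c (b i) y z = 0) → ∀ x, gTri Q c x y z = 0 := by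
    intro y z hb x
    let L : V →ₗ[ℝ] W :=
      { toFun := fun x => gTri Q c x y z
        map_add' := fun x x' => gTri_add1 Q c x x' y z
        map_smul' := fun r x => gTri_smul1 Q c r x y z }
    have : L = 0 := b.ext (fun i => by simpa [L] using hb i)
    exact LinearMap.congr_fun this x
  have h1 : ∀ x j k, gTri Q c x (b j) (b k) = 0 := fun x j k => key _ _ (fun i => h i j k) x
  have h2 : ∀ x y k, gTri Q c x y (b k) = 0 := by
    intro x y k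
    rw [gTri_cyc]
    refine key _ _ (fun i => ?_) y
    rw [gTri_cyc, gTri_cyc]
    exact h1 x i k
  rw [gTri_cyc, gTri_cyc]
  refine key _ _ (fun i => ?_) z
  rw [gTri_cyc]
  exact h2 x y i

/-- `(ζ, X) ↦ c (Q ζ (c X))` -/
def qqCLM (Q : V →L[ℝ] V →L[ℝ] W) (c : W →L[ℝ] V) :
    V →L[ℝ] W →L[ℝ] V :=
  LinearMap.toContinuousLinearMap
    { toFun := fun ζ => c.comp ((Q ζ).comp c)
      map_add' := by intro a b; ext1 X; simp
      map_smul' := by intro a b; ext1 X; simp }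

theorem qqCLM_apply (Q : V →L[ℝ] V →L[ℝ] W) (c : W →L[ℝ] V) (ζ : V) (X : W) :
    qqCLM Q c ζ X = c (Q ζ (c X)) := rfl

theorem contDiff_qqCLM : ContDiff ℝ ∞
    (fun p : (V →L[ℝ] V →L[ℝ] W) × (W →L[ℝ] V) => qqCLM p.1 p.2) := by
  rw [contDiff_clm_apply_iff]; intro ζ
  rw [contDiff_clm_apply_iff]; intro X
  simp only [qqCLM_apply]
  fun_prop

/-- the right hand side of the equation for `e` -/
def natCLM (Q : V →L[ℝ] V →L[ℝ] W) (c : W →L[ℝ] V) (e : V →L[ℝ] W →L[ℝ] V) :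
    V →L[ℝ] V →L[ℝ] W →L[ℝ] V :=
  LinearMap.toContinuousLinearMap
    { toFun := fun ζ => LinearMap.toContinuousLinearMap
        { toFun := fun η => LinearMap.toContinuousLinearMap
            { toFun := fun X => - c (Q (e η X) ζ) + e (c (Q η ζ)) X - e η (Q ζ (c X))
              map_add' := by
                intro X X'
                simp only [map_add, add_apply]; abel
              map_smul' := by
                intro r X
                simp only [map_smul, smul_apply, smul_add, smul_sub, smul_neg,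
                  RingHom.id_apply] }
          map_add' := by
            intro η η'
            ext1 X
            show - c (Q (e (η + η') X) ζ) + e (c (Q (η + η') ζ)) X - e (η + η') (Q ζ (c X)) =
              (- c (Q (e η X) ζ) + e (c (Q η ζ)) X - e η (Q ζ (c X))) +
              (- c (Q (e η' X) ζ) + e (c (Q η' ζ)) X - e η' (Q ζ (c X)))
            simp only [map_add, add_apply]; abel
          map_smul' := by
            intro r η
            ext1 X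
            show - c (Q (e (r • η) X) ζ) + e (c (Q (r • η) ζ)) X - e (r • η) (Q ζ (c X)) =
              r • (- c (Q (e η X) ζ) + e (c (Q η ζ)) X - e η (Q ζ (c X)))
            simp only [map_smul, smul_apply, smul_add, smul_sub, smul_neg] }
      map_add' := by
        intro ζ ζ'
        ext1 η
        ext1 X
        show - c (Q (e η X) (ζ + ζ')) + e (c (Q η (ζ + ζ'))) X - e η (Q (ζ + ζ') (c X)) =
          (- c (Q (e η X) ζ) + e (c (Q η ζ)) X - e η (Q ζ (c X))) +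
          (- c (Q (e η X) ζ') + e (c (Q η ζ')) X - e η (Q ζ' (c X)))
        simp only [map_add, add_apply]; abel
      map_smul' := by
        intro r ζ
        ext1 η
        ext1 X
        show - c (Q (e η X) (r • ζ)) + e (c (Q η (r • ζ))) X - e η (Q (r • ζ) (c X)) =
          r • (- c (Q (e η X) ζ) + e (c (Q η ζ)) X - e η (Q ζ (c X)))
        simp only [map_smul, smul_apply, smul_add, smul_sub, smul_neg] }

theorem natCLM_apply (Q : V →L[ℝ] V →L[ℝ] W) (c : W →L[ℝ] V)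
    (e : V →L[ℝ] W →L[ℝ] V) (ζ η : V) (X : W) :
    natCLM Q c e ζ η X = - c (Q (e η X) ζ) + e (c (Q η ζ)) X - e η (Q ζ (c X)) := rfl

/-! ### Algebra -/

/-- differentiating `D³F = Tri Q c` : the fourth derivative is symmetric iff `Sym4` -/
theorem sym4_of_D4 (Q : V →L[ℝ] V →L[ℝ] W) (hs : ∀ a b, Q a b = Q b a)
    (c : W →L[ℝ] V) (e : V →L[ℝ] W →L[ℝ] V)
    (Q' : V →L[ℝ] V →L[ℝ] V →L[ℝ] W) (c' : V →L[ℝ] W →L[ℝ] V)
    (hQ' : ∀ ζ ξ η, Q' ζ ξ η = gTri Q c ζ ξ η)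
    (hc' : ∀ ζ X, c' ζ X = e ζ X - c (Q ζ (c X)))
    (D4 : V → V → V → V → W)
    (hD4 : ∀ θ ξ η ζ, D4 θ ξ η ζ =
      (Q' θ ξ (c (Q η ζ)) + Q ξ (c' θ (Q η ζ)) + Q ξ (c (Q' θ η ζ))) +
      (Q' θ η (c (Q ζ ξ)) + Q η (c' θ (Q ζ ξ)) + Q η (c (Q' θ ζ ξ))) +
      (Q' θ ζ (c (Q ξ η)) + Q ζ (c' θ (Q ξ η)) + Q ζ (c (Q' θ ξ η))))
    (hsym : ∀ θ ξ η ζ, D4 θ ξ η ζ = D4 ξ θ η ζ) : gSym4 Q e := by
  intro θ ξ η ζ
  have h := hsym θ ξ η ζ
  rw [hD4, hD4] at h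
  simp only [hQ', hc', gTri, map_add, map_sub] at h
  simp only [hs] at h ⊢
  linear_combination (norm := module) h

theorem symE_of_D2c (Q : V →L[ℝ] V →L[ℝ] W) (hs : ∀ a b, Q a b = Q b a)
    (c : W →L[ℝ] V) (e : V →L[ℝ] W →L[ℝ] V)
    (Q' : V →L[ℝ] V →L[ℝ] V →L[ℝ] W) (c' : V →L[ℝ] W →L[ℝ] V)
    (e' : V →L[ℝ] V →L[ℝ] W →L[ℝ] V)
    (hQ' : ∀ ζ ξ η, Q' ζ ξ η = gTri Q c ζ ξ η)
    (hc' : ∀ ζ X, c' ζ X = e ζ X - c (Q ζ (c X)))
    (c'' : V → V → W → V)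
    (hc'' : ∀ ζ η X, c'' ζ η X = e' ζ η X -
      (c' ζ (Q η (c X)) + c (Q' ζ η (c X)) + c (Q η (c' ζ X))))
    (hsym : ∀ ζ η X, c'' ζ η X = c'' η ζ X) (ζ η : V) (X : W) :
    (e' - natCLM Q c e) ζ η X = (e' - natCLM Q c e) η ζ X := by
  have h := hsym ζ η X
  rw [hc'', hc''] at h
  simp only [hQ', hc', gTri, map_add, map_sub] at h
  simp only [sub_apply, natCLM_apply]
  simp only [hs] at h ⊢
  linear_combination (norm := module) h

theorem sym4_of_D1e (Q : V →L[ℝ] V →L[ℝ] W) (hs : ∀ a b, Q a b = Q b a)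
    (c : W →L[ℝ] V) (e : V →L[ℝ] W →L[ℝ] V)
    (Q' : V →L[ℝ] V →L[ℝ] V →L[ℝ] W)
    (e' : V →L[ℝ] V →L[ℝ] W →L[ℝ] V)
    (hQ' : ∀ ζ ξ η, Q' ζ ξ η = gTri Q c ζ ξ η)
    (h4 : gSym4 Q e)
    (h : ∀ ζ θ ξ η κ,
      (Q' ζ ξ (e θ (Q η κ)) + Q ξ (e' ζ θ (Q η κ)) + Q ξ (e θ (Q' ζ η κ))) +
      (Q' ζ η (e θ (Q κ ξ)) + Q η (e' ζ θ (Q κ ξ)) + Q η (e θ (Q' ζ κ ξ))) +
      (Q' ζ κ (e θ (Q ξ η)) + Q κ (e' ζ θ (Q ξ η)) + Q κ (e θ (Q' ζ ξ η))) =
      (Q' ζ θ (e ξ (Q η κ)) + Q θ (e' ζ ξ (Q η κ)) + Q θ (e ξ (Q' ζ η κ))) +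
      (Q' ζ η (e ξ (Q κ θ)) + Q η (e' ζ ξ (Q κ θ)) + Q η (e ξ (Q' ζ κ θ))) +
      (Q' ζ κ (e ξ (Q θ η)) + Q κ (e' ζ ξ (Q θ η)) + Q κ (e ξ (Q' ζ θ η)))) (ζ : V) :
    gSym4 Q ((e' - natCLM Q c e) ζ) := by
  intro θ ξ η κ
  have h1 := h ζ θ ξ η κ
  have a0 := congrArg (fun v => Q ζ (c v)) (h4 θ ξ η κ)
  have a1 := h4 (c (Q ζ θ)) ξ η κ
  have a2 := h4 θ (c (Q ζ ξ)) η κ
  have a3 := h4 θ ξ (c (Q ζ η)) κ
  have a4 := h4 θ ξ η (c (Q ζ κ))
  simp only [hQ', gTri, map_add] at h1 a0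
  simp only [sub_apply, natCLM_apply, map_add, map_sub, map_neg]
  simp only [hs] at h1 a0 a1 a2 a3 a4 ⊢
  linear_combination (norm := module) h1 - a0 - a1 - a2 - a3 - a4

end Pool.Agent.KP.I9
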