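import Pool.Agent.Lib_helper9.KP.I1

/-!
# Block I : the closed system (MP_3b4c52_gt), calculus part in arbitrary finite dimensional spaces
-/

set_option autoImplicit false
set_option linter.unusedSectionVars false
set_option maxSynthPendingDepth 3

open scoped Manifold ContDiff InnerProductSpace Topology
open Metric Set

noncomputable section

namespace Pool.Agent.KP.I9

variable {V W : Type*} [NormedAddCommGroup V] [NormedSpace ℝ V] [FiniteDimensional ℝ V]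
  [NormedAddCommGroup W] [NormedSpace ℝ W] [FiniteDimensional ℝ W]

/-! ### Derivatives of products -/

theorem deriv_term1 {Q : V → V →L[ℝ] V →L[ℝ] W} {g : V → W →L[ℝ] V} {x : V}
    (hQ : DifferentiableAt ℝ Q x) (hg : DifferentiableAt ℝ g x) (ξ η ζ : V) :
    DifferentiableAt ℝ (fun y => Q y ξ (g y (Q y η ζ))) x ∧
    ∀ θ, fderiv ℝ (fun y => Q y ξ (g y (Q y η ζ))) x θ =
      fderiv ℝ Q x θ ξ (g x (Q x η ζ)) + Q x ξ (fderiv ℝ g x θ (Q x η ζ)) +
        Q x ξ (g x (fderiv ℝ Q x θ η ζ)) := by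
  have h1 := hQ.hasFDerivAt.clm_apply (hasFDerivAt_const ξ x)
  have h2 := (hQ.hasFDerivAt.clm_apply (hasFDerivAt_const η x)).clm_apply (hasFDerivAt_const ζ x)
  have h3 := h1.clm_apply (hg.hasFDerivAt.clm_apply h2)
  refine ⟨h3.differentiableAt, fun θ => ?_⟩
  rw [h3.fderiv]
  simp only [add_apply, ContinuousLinearMap.comp_apply, ContinuousLinearMap.flip_apply,
    zero_apply, map_zero, zero_add, map_add]
  abel

theorem deriv_term2 {Q : V → V →L[ℝ] V →L[ℝ] W} {g : V → W →L[ℝ] V} {x : V}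
    (hQ : DifferentiableAt ℝ Q x) (hg : DifferentiableAt ℝ g x) (η : V) (X : W) :
    DifferentiableAt ℝ (fun y => g y (Q y η (g y X))) x ∧
    ∀ θ, fderiv ℝ (fun y => g y (Q y η (g y X))) x θ =
      fderiv ℝ g x θ (Q x η (g x X)) + g x (fderiv ℝ Q x θ η (g x X)) +
        g x (Q x η (fderiv ℝ g x θ X)) := by
  have h1 := hQ.hasFDerivAt.clm_apply (hasFDerivAt_const η x)
  have h2 := hg.hasFDerivAt.clm_apply (hasFDerivAt_const X x)
  have h3 := hg.hasFDerivAt.clm_apply (h1.clm_apply h2)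
  refine ⟨h3.differentiableAt, fun θ => ?_⟩
  rw [h3.fderiv]
  simp only [add_apply, ContinuousLinearMap.comp_apply, ContinuousLinearMap.flip_apply,
    zero_apply, map_zero, zero_add, map_add]
  abel

theorem hn2 : minSmoothness ℝ 2 ≤ (∞ : WithTop ℕ∞) := by
  rw [minSmoothness_of_isRCLikeNormedField]
  exact WithTop.coe_le_coe.2 (le_top : (2 : ℕ∞) ≤ ⊤)

theorem fderiv_apply_const {E G : Type*} [NormedAddCommGroup E] [NormedSpace ℝ E]
    [NormedAddCommGroup G] [NormedSpace ℝ G] {g : V → E →L[ℝ] G} {x : V}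
    (hg : DifferentiableAt ℝ g x) (a : E) :
    DifferentiableAt ℝ (fun y => g y a) x ∧
    ∀ θ, fderiv ℝ (fun y => g y a) x θ = fderiv ℝ g x θ a := by
  have h := hg.hasFDerivAt.clm_apply (hasFDerivAt_const a x)
  refine ⟨h.differentiableAt, fun θ => ?_⟩
  rw [h.fderiv]
  simp

/-! ### The coefficient `c` -/

theorem exists_c (Q : V → V →L[ℝ] V →L[ℝ] W) (Ω : Set V) (hΩ : IsOpen Ω) (h0 : (0 : V) ∈ Ω)
    (hQ : ∀ x ∈ Ω, ContDiffAt ℝ ∞ Q x)
    (hex : ∀ x ∈ Ω, ∃ c : W →L[ℝ] V, ∀ a b e, fderiv ℝ Q x a b e = gTri (Q x) c a b e)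
    (hun : ∀ x ∈ Ω, ∀ c : W →L[ℝ] V, (∀ a, Q x a (c (Q x a a)) = 0) → c = 0) :
    ∃ r > 0, ∃ c : V → (W →L[ℝ] V), ball (0 : V) r ⊆ Ω ∧ ∀ x ∈ ball (0 : V) r,
      ContDiffAt ℝ ∞ c x ∧ ∀ a b e, fderiv ℝ Q x a b e = gTri (Q x) (c x) a b e := by
  have : CompleteSpace V := FiniteDimensional.complete ℝ V
  set b := Module.finBasis ℝ V with hb
  set ι := Fin (Module.finrank ℝ V) with hι
  have hker : LinearMap.ker (triL b (Q 0)) = ⊥ := by
    rw [LinearMap.ker_eq_bot']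
    intro c hc
    apply hun 0 h0 c
    intro a
    have h1 := gTri_eq_zero b (Q 0) c (fun i j k => congrFun hc (i, j, k)) a a a
    have h2 : gTri (Q 0) c a a a = (3 : ℝ) • Q 0 a (c (Q 0 a a)) := by
      simp only [gTri]; module
    rw [h2] at h1
    exact (smul_eq_zero.mp h1).resolve_left (by norm_num)
  obtain ⟨ℓ, hℓ⟩ := LinearMap.exists_leftInverse_of_injective (triL b (Q 0)) hker
  set ℓ' : (ι × ι × ι → W) →L[ℝ] (W →L[ℝ] V) := LinearMap.toContinuousLinearMap ℓ with hℓ'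
  let Mh : (V →L[ℝ] V →L[ℝ] W) → ((W →L[ℝ] V) →L[ℝ] (W →L[ℝ] V)) :=
    fun q => LinearMap.toContinuousLinearMap (ℓ ∘ₗ triL b q)
  have hMh_apply : ∀ q c, Mh q c = ℓ' (fun t => gTri q c (b t.1) (b t.2.1) (b t.2.2)) := by
    intro q c; rfl
  have hMh : ContDiff ℝ ∞ Mh := by
    rw [contDiff_clm_apply_iff]
    intro c
    simp only [hMh_apply]
    refine ℓ'.contDiff.comp (contDiff_pi.2 fun t => ?_)
    simp only [gTri]
    fun_prop
  have hM : ∀ x ∈ Ω, ContDiffAt ℝ ∞ (fun x => Mh (Q x)) x := fun x hx =>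
    hMh.contDiffAt.comp x (hQ x hx)
  have hM0 : Mh (Q 0) = 1 := by
    ext1 c
    show ℓ (triL b (Q 0) c) = c
    exact LinearMap.congr_fun hℓ c
  have hev : ∀ᶠ x in 𝓝 (0 : V), x ∈ Ω ∧ IsUnit (Mh (Q x)) := by
    refine (hΩ.eventually_mem h0).and ?_
    have h1 : {m : (W →L[ℝ] V) →L[ℝ] (W →L[ℝ] V) | IsUnit m} ∈ 𝓝 (Mh (Q 0)) :=
      Units.isOpen.mem_nhds (by rw [hM0]; exact isUnit_one)
    exact (hM 0 h0).continuousAt.eventually h1
  obtain ⟨r, hr, hball⟩ := Metric.eventually_nhds_iff_ball.mp hev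
  refine ⟨r, hr, fun x => Ring.inverse (Mh (Q x))
    (ℓ' (fun t => fderiv ℝ Q x (b t.1) (b t.2.1) (b t.2.2))), fun x hx => (hball x hx).1, ?_⟩
  intro x hx
  obtain ⟨hxΩ, hxu⟩ := hball x hx
  constructor
  · obtain ⟨u, hu⟩ := hxu
    have h1 : ContDiffAt ℝ ∞ (fun x => Ring.inverse (Mh (Q x))) x := by
      have h2 := contDiffAt_ringInverse (R := (W →L[ℝ] V) →L[ℝ] (W →L[ℝ] V)) ℝ (n := ∞) u
      rw [hu] at h2
      exact h2.comp x (hM x hxΩ)
    have h3 : ContDiffAt ℝ ∞ (fderiv ℝ Q) x := (hQ x hxΩ).fderiv_right (by simp)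
    refine h1.clm_apply (ℓ'.contDiff.contDiffAt.comp x (contDiffAt_pi.2 fun t => ?_))
    exact ((h3.clm_apply contDiffAt_const).clm_apply contDiffAt_const).clm_apply contDiffAt_const
  · obtain ⟨cs, hcs⟩ := hex x hxΩ
    have h1 : ℓ' (fun t => fderiv ℝ Q x (b t.1) (b t.2.1) (b t.2.2)) = Mh (Q x) cs := by
      rw [hMh_apply]
      congr 1
      funext t
      exact hcs _ _ _
    have h2 : Ring.inverse (Mh (Q x))
        (ℓ' (fun t => fderiv ℝ Q x (b t.1) (b t.2.1) (b t.2.2))) = cs := by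
      rw [h1]
      have h3 := Ring.inverse_mul_cancel (Mh (Q x)) hxu
      exact congrArg (fun m : (W →L[ℝ] V) →L[ℝ] (W →L[ℝ] V) => m cs) h3
    intro a b' e
    show fderiv ℝ Q x a b' e = gTri (Q x) (Ring.inverse (Mh (Q x))
        (ℓ' (fun t => fderiv ℝ Q x (b t.1) (b t.2.1) (b t.2.2)))) a b' e
    rw [h2]
    exact hcs a b' e

/-! ### The closed system -/

theorem exists_sys (F : V → W) (Ω : Set V) (hΩ : IsOpen Ω) (h0 : (0 : V) ∈ Ω)
    (hF : ContDiffOn ℝ ∞ F Ω)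
    (hex : ∀ x ∈ Ω, ∃ c : W →L[ℝ] V, ∀ a b e,
      fderiv ℝ (fderiv ℝ (fderiv ℝ F)) x a b e = gTri (fderiv ℝ (fderiv ℝ F) x) c a b e)
    (hun : ∀ x ∈ Ω, ∀ c : W →L[ℝ] V,
      (∀ a, fderiv ℝ (fderiv ℝ F) x a (c (fderiv ℝ (fderiv ℝ F) x a a)) = 0) → c = 0)
    (hpro : ∀ x ∈ Ω, ∀ e : V →L[ℝ] V →L[ℝ] W →L[ℝ] V,
      (∀ ζ, gSym4 (fderiv ℝ (fderiv ℝ F) x) (e ζ)) → (∀ ζ η X, e ζ η X = e η ζ X) → e = 0) :
    ∃ r > 0, ∃ (c : V → (W →L[ℝ] V)) (e : V → (V →L[ℝ] W →L[ℝ] V)), ball (0 : V) r ⊆ Ω ∧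
      ∀ x ∈ ball (0 : V) r, DifferentiableAt ℝ c x ∧ DifferentiableAt ℝ e x ∧
        (∀ ζ ξ η, fderiv ℝ (fderiv ℝ (fderiv ℝ F)) x ζ ξ η =
          gTri (fderiv ℝ (fderiv ℝ F) x) (c x) ζ ξ η) ∧
        (∀ ζ X, fderiv ℝ c x ζ X = e x ζ X - c x (fderiv ℝ (fderiv ℝ F) x ζ (c x X))) ∧
        (∀ ζ η X, fderiv ℝ e x ζ η X =
          - c x (fderiv ℝ (fderiv ℝ F) x (e x η X) ζ)
          + e x (c x (fderiv ℝ (fderiv ℝ F) x η ζ)) X
          - e x η (fderiv ℝ (fderiv ℝ F) x ζ (c x X))) ∧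
        gSym4 (fderiv ℝ (fderiv ℝ F) x) (e x) := by
  set Q : V → V →L[ℝ] V →L[ℝ] W := fderiv ℝ (fderiv ℝ F) with hQdef
  have hFx : ∀ x ∈ Ω, ContDiffAt ℝ ∞ F x := fun x hx => hF.contDiffAt (hΩ.mem_nhds hx)
  have hF1 : ∀ x ∈ Ω, ContDiffAt ℝ ∞ (fderiv ℝ F) x := fun x hx =>
    (hFx x hx).fderiv_right (by simp)
  have hQx : ∀ x ∈ Ω, ContDiffAt ℝ ∞ Q x := fun x hx => (hF1 x hx).fderiv_right (by simp)
  have hs : ∀ x ∈ Ω, ∀ a b, Q x a b = Q x b a := fun x hx a b =>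
    (hFx x hx).isSymmSndFDerivAt hn2 a b
  obtain ⟨r, hr, c, hrΩ, hc⟩ := exists_c Q Ω hΩ h0 hQx hex hun
  set B := ball (0 : V) r with hB
  have hBo : IsOpen B := isOpen_ball
  have hcd : ∀ x ∈ B, ContDiffAt ℝ ∞ c x := fun x hx => (hc x hx).1
  have hC : ∀ x ∈ B, ∀ a b e, fderiv ℝ Q x a b e = gTri (Q x) (c x) a b e :=
    fun x hx => (hc x hx).2
  set e : V → (V →L[ℝ] W →L[ℝ] V) := fun x => fderiv ℝ c x + qqCLM (Q x) (c x) with he
  have hed : ∀ x ∈ B, ContDiffAt ℝ ∞ e x := by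
    intro x hx
    refine ((hcd x hx).fderiv_right (by simp)).add ?_
    exact contDiff_qqCLM.contDiffAt.comp x ((hQx x (hrΩ hx)).prodMk (hcd x hx))
  have hcdiff : ∀ x ∈ B, DifferentiableAt ℝ c x := fun x hx =>
    (hcd x hx).differentiableAt (by simp)
  have hediff : ∀ x ∈ B, DifferentiableAt ℝ e x := fun x hx =>
    (hed x hx).differentiableAt (by simp)
  have hQdiff : ∀ x ∈ B, DifferentiableAt ℝ Q x := fun x hx =>
    (hQx x (hrΩ hx)).differentiableAt (by simp)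
  have hcc : ∀ x ∈ B, ∀ ζ X, fderiv ℝ c x ζ X = e x ζ X - c x (Q x ζ (c x X)) := by
    intro x _ ζ X
    simp only [he, add_apply, qqCLM_apply]
    abel
  -- the fourth order symmetry
  have h4 : ∀ x ∈ B, gSym4 (Q x) (e x) := by
    intro x hx
    refine sym4_of_D4 (Q x) (hs x (hrΩ hx)) (c x) (e x) (fderiv ℝ Q x) (fderiv ℝ c x)
      (hC x hx) (hcc x hx)
      (fun θ ξ η ζ => fderiv ℝ (fderiv ℝ (fun y => Q y η ζ)) x θ ξ) ?_ ?_
    · intro θ ξ η ζ
      have hq : ContDiffAt ℝ ∞ (fun y => Q y η ζ) x :=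
        ((hQx x (hrΩ hx)).clm_apply contDiffAt_const).clm_apply contDiffAt_const
      have hq1 : DifferentiableAt ℝ (fderiv ℝ (fun y => Q y η ζ)) x :=
        (hq.fderiv_right (m := ∞) (by simp)).differentiableAt (by simp)
      have e1 := (fderiv_apply_const hq1 ξ).2 θ
      have e2 : (fun y => fderiv ℝ (fun y => Q y η ζ) y ξ) =ᶠ[𝓝 x]
          (fun y => gTri (Q y) (c y) ξ η ζ) := by
        filter_upwards [hBo.mem_nhds hx] with y hy
        rw [← hC y hy]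
        have f1 := fderiv_apply_const (hQdiff y hy) η
        have f2 := (fderiv_apply_const f1.1 ζ).2 ξ
        rw [f2, f1.2]
      show fderiv ℝ (fderiv ℝ (fun y => Q y η ζ)) x θ ξ = _
      rw [← e1, e2.fderiv_eq]
      have t1 := deriv_term1 (hQdiff x hx) (hcdiff x hx) ξ η ζ
      have t2 := deriv_term1 (hQdiff x hx) (hcdiff x hx) η ζ ξ
      have t3 := deriv_term1 (hQdiff x hx) (hcdiff x hx) ζ ξ η
      have hsum : HasFDerivAt (fun y => gTri (Q y) (c y) ξ η ζ) _ x :=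
        (t1.1.hasFDerivAt.add t2.1.hasFDerivAt).add t3.1.hasFDerivAt
      rw [hsum.fderiv, add_apply, add_apply, t1.2, t2.2, t3.2]
    · intro θ ξ η ζ
      have hq : ContDiffAt ℝ ∞ (fun y => Q y η ζ) x :=
        ((hQx x (hrΩ hx)).clm_apply contDiffAt_const).clm_apply contDiffAt_const
      exact hq.isSymmSndFDerivAt hn2 θ ξ
  refine ⟨r, hr, c, e, hrΩ, fun x hx => ⟨hcdiff x hx, hediff x hx, hC x hx, hcc x hx, ?_, h4 x hx⟩⟩
  -- the equation for `e`
  have hzero : fderiv ℝ e x - natCLM (Q x) (c x) (e x) = 0 := by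
    refine hpro x (hrΩ hx) _ ?_ ?_
    · refine sym4_of_D1e (Q x) (hs x (hrΩ hx)) (c x) (e x) (fderiv ℝ Q x) (fderiv ℝ e x)
        (hC x hx) (h4 x hx) ?_
      intro ζ θ ξ η κ
      have hg : ∀ a : V, DifferentiableAt ℝ (fun y => e y a) x ∧
          ∀ θ, fderiv ℝ (fun y => e y a) x θ = fderiv ℝ e x θ a := fun a =>
        fderiv_apply_const (hediff x hx) a
      have t1 := deriv_term1 (hQdiff x hx) (hg θ).1 ξ η κ
      have t2 := deriv_term1 (hQdiff x hx) (hg θ).1 η κ ξ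
      have t3 := deriv_term1 (hQdiff x hx) (hg θ).1 κ ξ η
      have s1 := deriv_term1 (hQdiff x hx) (hg ξ).1 θ η κ
      have s2 := deriv_term1 (hQdiff x hx) (hg ξ).1 η κ θ
      have s3 := deriv_term1 (hQdiff x hx) (hg ξ).1 κ θ η
      have hl := (t1.1.hasFDerivAt.add t2.1.hasFDerivAt).add t3.1.hasFDerivAt
      have hr' := (s1.1.hasFDerivAt.add s2.1.hasFDerivAt).add s3.1.hasFDerivAt
      have heq := hl.unique (hr'.congr_of_eventuallyEq (by
        filter_upwards [hBo.mem_nhds hx] with y hy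
        exact h4 y hy θ ξ η κ))
      have := congrArg (fun L : V →L[ℝ] W => L ζ) heq
      simp only [add_apply, t1.2, t2.2, t3.2, s1.2, s2.2, s3.2, (hg θ).2, (hg ξ).2] at this
      exact this
    · refine symE_of_D2c (Q x) (hs x (hrΩ hx)) (c x) (e x) (fderiv ℝ Q x) (fderiv ℝ c x)
        (fderiv ℝ e x) (hC x hx) (hcc x hx)
        (fun ζ η X => fderiv ℝ (fderiv ℝ (fun y => c y X)) x ζ η) ?_ ?_
      · intro ζ η X
        have hq : ContDiffAt ℝ ∞ (fun y => c y X) x := (hcd x hx).clm_apply contDiffAt_const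
        have hq1 : DifferentiableAt ℝ (fderiv ℝ (fun y => c y X)) x :=
          (hq.fderiv_right (m := ∞) (by simp)).differentiableAt (by simp)
        have e1 := (fderiv_apply_const hq1 η).2 ζ
        have e2 : (fun y => fderiv ℝ (fun y => c y X) y η) =ᶠ[𝓝 x]
            (fun y => e y η X - c y (Q y η (c y X))) := by
          filter_upwards [hBo.mem_nhds hx] with y hy
          rw [← hcc y hy, (fderiv_apply_const (hcdiff y hy) X).2]
        show fderiv ℝ (fderiv ℝ (fun y => c y X)) x ζ η = _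
        rw [← e1, e2.fderiv_eq]
        have t0 := fderiv_apply_const (hediff x hx) η
        have t1 := fderiv_apply_const t0.1 X
        have t2 := deriv_term2 (hQdiff x hx) (hcdiff x hx) η X
        have hsub : HasFDerivAt (fun y => e y η X - c y (Q y η (c y X))) _ x :=
          t1.1.hasFDerivAt.sub t2.1.hasFDerivAt
        rw [hsub.fderiv, sub_apply, t1.2, t0.2, t2.2]
      · intro ζ η X
        have hq : ContDiffAt ℝ ∞ (fun y => c y X) x := (hcd x hx).clm_apply contDiffAt_const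
        exact hq.isSymmSndFDerivAt hn2 ζ η
  intro ζ η X
  have h := congrArg (fun L : V →L[ℝ] V →L[ℝ] W →L[ℝ] V => L ζ η X) hzero
  simp only [sub_apply, natCLM_apply, zero_apply] at h
  rw [sub_eq_zero] at h
  exact h

end Pool.Agent.KP.I9
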